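import Pool.Agent.W417.TA.WeilC

/-!
# The reductions of split Weil classes: the theorem
-/

set_option autoImplicit false
set_option linter.unusedSectionVars false

namespace Pool.Agent.W417.TA

open NumberField Pool.Agent.H204R3.CM Pool.Agent.W547.KB Pool.Agent.W547.LD Module
  Pool.Agent.W495.TA
open scoped TensorProduct

noncomputable section

theorem big_prodOf {L : Type} [Field L] [NumberField L] [IsCMField L] [IsGalois ℚ L] (j : L →+* ℂ)
    {Q : Type} [Fintype Q] (x : Q → Set (L ≃ₐ[ℚ] L)) (hx : ∀ q, IsHalf (x q)) :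
    Big (prodOf j x hx) j := by
  intro q ψ
  obtain ⟨τ, hτ⟩ := exists_embC j (x q) ψ
  exact ⟨emb (x q) τ, hτ.symm⟩

theorem weil : S_weil := by
  intro hval hru hbasis hpull p _ ν Ω _ _ L _ _ _ _ j jO A hbig b hb ϖ hfrob hinj ε s hε hεs hs'
    hsemi _ r u hcard hu hbal hrel
  classical
  -- a point with positive sign
  obtain ⟨φ0, h0⟩ : ∃ φ0 : A.E →+* L, s φ0 = 1 := by
    obtain ⟨ψ⟩ : Nonempty (A.E →+* ℂ) := inferInstance
    obtain ⟨φ, -⟩ := hbig ψ
    rcases hs'.sign φ with h | h
    · exact ⟨φ, h⟩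
    · exact ⟨cc L • φ, by rw [hs'.odd, h, neg_neg]⟩
  have hinj' : Function.Injective fun φ : A.E →+* L => hs A j φ := by
    intro φ φ' h
    apply hinj
    change tf p ν j (hs A j φ) = tf p ν j (hs A j φ')
    have h' : hs A j φ = hs A j φ' := h
    rw [h']
  let N := kerN hsemi h0
  let x := fam j A s φ0 u r
  have hx : ∀ q, IsHalf (x q) := isHalf_fam j A hs' φ0 hu r
  let Z : RedAV p ν :=
    { X := prodOf j x hx
      a := 2 * b
      pos := by omega
      π := fun q => (show fld (x q) from ⟨pe A b φ0 ϖ p r q, pe_mem j A r b φ0 ϖ p hinj' q⟩)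
      frob := frob_fam j A hval hbig hfrob hs' hεs hε h0 hu r hbal hrel hinj' }
  have hN : IsImag N := isImag_kerN A hs' hsemi h0
  have hst : ∀ q, stab (x q) ≤ N := stab_fam j A hsemi hs' h0 hu r hinj'
  have : Fintype (Orb N x) := Fintype.ofFinite _
  have hb1 : Balanced (fun k : Orb N x => k.2.1) :=
    balanced_fam j A hsemi hs' hεs hε h0 hu r hbal hinj'
  let f : ({φ : A.E →+* L // s φ = 1} ⊕ Fin r) ≃ Orb N x :=
    Equiv.ofBijective _ (toOrb_bijective j A hsemi h0 u r hinj')
  have hcardO : Fintype.card (Orb N x) = 4 ∨ Fintype.card (Orb N x) = 6 := by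
    rw [← Fintype.card_congr f, Fintype.card_sum, Fintype.card_fin]
    have := card_pos_part A hs'
    omega
  set n := Fintype.card (Orb N x) with hn
  let e : Orb N x ≃ Fin n := Fintype.equivFin _
  let J : Fin n → Wt Z.X L := fun k => orbWt j N x hx (e.symm k)
  have hJ : Alg Ω Z (Fin n) (monoO jO J) := by
    refine monoO_mem_of_trO jO J fun α => ?_
    exact Alg.weil (Ω := Ω) (Y := Z) hcardO (trForm α J)
      (isWeilClass_trForm j N x hx hN hst e (by omega) hb1 α) (trO jO α J)
      (fun v => trO_tmul jO α J v)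
  let J' : ({φ : A.E →+* L // s φ = 1} ⊕ Fin r) → Wt Z.X L := fun k => orbWt j N x hx (f k)
  have hJ' : Alg Ω Z _ (monoO jO J') := by
    have h1 := monoO_reindex jO (f.trans e).symm J'
    rw [← h1]
    refine Alg.reindex _ _ ?_
    have h2 : (fun k => J' ((f.trans e).symm k)) = J := by
      funext k
      change orbWt j N x hx (f (f.symm (e.symm k))) = _
      rw [f.apply_symm_apply]
    rw [h2]
    exact hJ
  have h3 := @hpull hval hru hbasis p _ ν Ω _ _ L _ _ _ _ j jO Z (big_prodOf j x hx) _ _ _ J'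
    ((orbWt_injective j N x hx).comp f.injective) hJ'
  have h4 : (fun k => tf p ν j (St j (J' k))) =
      (Sum.elim (fun φ => tf p ν j (hs A j φ.1)) fun _ => 0) := by
    funext k
    have h5 : St j (J' k) = (f k).2.1 := St_orbWt j N x hx (f k)
    rw [h5]
    rcases k with φ | i
    · rfl
    · change tf p ν j (eS A s φ0 u) = 0
      funext σ
      exact tf_eS_zero j A hs' hεs hε h0 hu (Fin.pos i) hbal hrel σ
  rw [h4] at h3
  exact @h3

end

end Pool.Agent.W417.TA
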