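import Pool.Agent.W495.TA.Stms

/-!
# Base change of monomials and of traces of monomials
-/

set_option autoImplicit false
set_option linter.unusedSectionVars false

namespace Pool.Agent.W417.TA

open NumberField Pool.Agent.H204R3.CM Pool.Agent.W547.KB Pool.Agent.W547.LD Module
  Pool.Agent.W495.TA
open scoped TensorProduct

noncomputable section

variable {p : ℕ} [Fact p.Prime] {ν : PadicAlgCl p ≃+* ℂ} {Ω : Type} [Field Ω] [CharZero Ω]
  {L : Type} [Field L] [NumberField L] {Y : RedAV p ν}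

theorem co_tmul (jO : L →+* Ω) (w : Wt Y.X L) (v : Y.X.H1) :
    co jO w ((1 : Ω) ⊗ₜ[ℚ] v) = jO (ev v w) := by
  unfold co
  rw [LinearMap.liftBaseChange_tmul, one_smul]
  rfl

section

variable {κ κ' : Type} [Fintype κ] [DecidableEq κ] [Fintype κ'] [DecidableEq κ']

theorem monoO_apply (jO : L →+* Ω) (I : κ → Wt Y.X L) (v : κ → TM Ω Y) :
    monoO jO I v = ∑ σ : Equiv.Perm κ, ((Equiv.Perm.sign σ : ℤ) : Ω) *
      ∏ k, co jO (I k) (v (σ k)) := by
  unfold monoO
  rw [MultilinearMap.alternatization_apply]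
  refine Finset.sum_congr rfl fun σ _ => ?_
  rw [Units.smul_def, zsmul_eq_mul]
  rfl

theorem monoO_tmul (jO : L →+* Ω) (I : κ → Wt Y.X L) (v : κ → Y.X.H1) :
    monoO jO I (fun k => (1 : Ω) ⊗ₜ[ℚ] v k) = jO (mono I v) := by
  rw [monoO_apply, mono_apply, map_sum]
  refine Finset.sum_congr rfl fun σ _ => ?_
  rw [map_mul, map_intCast, map_prod]
  congr 1
  exact Finset.prod_congr rfl fun k _ => co_tmul jO _ _

theorem ext_tmul {f g : (TM Ω Y) [⋀^κ]→ₗ[Ω] Ω}
    (h : ∀ v : κ → Y.X.H1, f (fun k => (1 : Ω) ⊗ₜ[ℚ] v k) = g (fun k => (1 : Ω) ⊗ₜ[ℚ] v k)) :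
    f = g := by
  let b := Module.Free.chooseBasis ℚ Y.X.H1
  let e : Basis _ Ω (TM Ω Y) := Algebra.TensorProduct.basis Ω b
  apply AlternatingMap.coe_multilinearMap_injective
  refine Basis.ext_multilinear (fun _ => e) fun v => ?_
  have h1 : ∀ i, e i = (1 : Ω) ⊗ₜ[ℚ] b i := fun i => Algebra.TensorProduct.basis_apply b i
  simp only [h1]
  exact h fun k => b (v k)

theorem monoO_reindex (jO : L →+* Ω) (e : κ ≃ κ') (I : κ' → Wt Y.X L) :
    (monoO jO (fun k => I (e k))).domDomCongr e = monoO jO I := by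
  refine AlternatingMap.ext fun v => ?_
  rw [AlternatingMap.domDomCongr_apply, monoO_apply, monoO_apply]
  refine Fintype.sum_equiv e.permCongr _ _ fun σ => ?_
  rw [Equiv.Perm.sign_permCongr]
  congr 1
  refine Fintype.prod_equiv e _ _ fun k => ?_
  rw [Equiv.permCongr_apply, Equiv.symm_apply_apply]
  rfl

theorem alg_sum {ι : Type} (s : Finset ι) (f : ι → (TM Ω Y) [⋀^κ]→ₗ[Ω] Ω)
    (h : ∀ i ∈ s, Alg Ω Y κ (f i)) : Alg Ω Y κ (∑ i ∈ s, f i) := by
  classical
  induction s using Finset.induction_on with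
  | empty =>
    rw [Finset.sum_empty]
    exact Alg.zero Y κ
  | insert a s ha ih =>
    rw [Finset.sum_insert ha]
    exact Alg.add _ _ (h a (Finset.mem_insert_self a s))
      (ih fun i hi => h i (Finset.mem_insert_of_mem hi))

theorem alt_sum_apply {ι : Type} (s : Finset ι) (f : ι → (TM Ω Y) [⋀^κ]→ₗ[Ω] Ω)
    (v : κ → TM Ω Y) : (∑ i ∈ s, f i) v = ∑ i ∈ s, f i v := by
  classical
  induction s using Finset.induction_on with
  | empty =>
    rw [Finset.sum_empty, Finset.sum_empty]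
    rfl
  | insert a s ha ih =>
    rw [Finset.sum_insert ha, Finset.sum_insert ha, ← ih]
    rfl

/-- The base change of the trace of a multiple of a monomial. -/
def trO [IsGalois ℚ L] (jO : L →+* Ω) (α : L) (I : κ → Wt Y.X L) : (TM Ω Y) [⋀^κ]→ₗ[Ω] Ω :=
  ∑ τ : L ≃ₐ[ℚ] L, jO (τ α) •
    monoO jO (fun k => (⟨(I k).1, (τ : L →+* L).comp (I k).2⟩ : Wt Y.X L))

theorem trO_tmul [IsGalois ℚ L] (jO : L →+* Ω) (α : L) (I : κ → Wt Y.X L) (v : κ → Y.X.H1) :
    trO jO α I (fun k => (1 : Ω) ⊗ₜ[ℚ] v k) = ((trForm α I v : ℚ) : Ω) := by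
  unfold trO
  rw [alt_sum_apply, trForm_apply]
  have h1 := trace_eq_sum_automorphisms (K := ℚ) (L := L) (α * mono I v)
  have h2 := congrArg jO h1
  rw [map_sum, eq_ratCast, map_ratCast] at h2
  rw [h2]
  refine Finset.sum_congr rfl fun τ _ => ?_
  rw [AlternatingMap.smul_apply, monoO_tmul, smul_eq_mul, ← map_mul, map_mul τ]
  congr 2
  rw [mono_apply, mono_apply, map_sum]
  refine Finset.sum_congr rfl fun σ _ => ?_
  rw [map_mul, map_intCast, map_prod]
  rfl

theorem monoO_mem_of_trO [IsGalois ℚ L] (jO : L →+* Ω) (I : κ → Wt Y.X L)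
    (h : ∀ α : L, Alg Ω Y κ (trO jO α I)) : Alg Ω Y κ (monoO jO I) := by
  obtain ⟨n, a, b, hab⟩ := exists_dual L
  have h1 : monoO jO I = ∑ i, jO (b i) • trO jO (a i) I := by
    refine ext_tmul fun v => ?_
    rw [alt_sum_apply, monoO_tmul]
    conv_lhs => rw [hab (mono I v)]
    rw [map_sum]
    refine Finset.sum_congr rfl fun i _ => ?_
    rw [AlternatingMap.smul_apply, trO_tmul, smul_eq_mul, map_mul, map_ratCast, trForm_apply]
  rw [h1]
  exact alg_sum _ _ fun i _ => Alg.smul _ _ (h _)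

end

end

end Pool.Agent.W417.TA
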