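import Pool.Agent.W417.TA.Mono

/-!
# The family of a semi-invariant sign function
-/

set_option autoImplicit false
set_option linter.unusedSectionVars false

namespace Pool.Agent.W417.TA

open NumberField Pool.Agent.H204R3.CM Pool.Agent.W547.KB Pool.Agent.W547.LD Module
  Pool.Agent.W495.TA
open scoped TensorProduct

noncomputable section

section chi

variable {G X : Type} [Group G] [MulAction G X] {c : G} {s : X → ℤ}

theorem chi (hsemi : Semi G s) {x₀ : X} (h0 : s x₀ = 1) (σ : G) (x : X) :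
    s (σ • x) = s (σ • x₀) * s x := by
  rcases hsemi σ with h | h
  · rw [h, h, h0, one_mul]
  · rw [h, h, h0, neg_one_mul]

/-- the kernel of the sign character -/
def kerN (hsemi : Semi G s) {x₀ : X} (h0 : s x₀ = 1) : Subgroup G where
  carrier := {τ | s (τ • x₀) = 1}
  mul_mem' {σ τ} hσ hτ := by
    change s ((σ * τ) • x₀) = 1
    rw [mul_smul, chi hsemi h0, hσ, hτ, one_mul]
  one_mem' := by
    change s ((1 : G) • x₀) = 1
    rw [one_smul, h0]
  inv_mem' {τ} hτ := by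
    change s (τ⁻¹ • x₀) = 1
    have h1 := chi hsemi h0 τ⁻¹ (τ • x₀)
    rw [inv_smul_smul, h0] at h1
    have h2 : s (τ • x₀) = 1 := hτ
    rw [h2, mul_one] at h1
    exact h1.symm

theorem mem_kerN (hsemi : Semi G s) {x₀ : X} (h0 : s x₀ = 1) (τ : G) :
    τ ∈ kerN hsemi h0 ↔ s (τ • x₀) = 1 := Iff.rfl

end chi

variable {p : ℕ} [Fact p.Prime] {ν : PadicAlgCl p ≃+* ℂ}
  {L : Type} [Field L] [NumberField L] [IsCMField L] [IsGalois ℚ L] (j : L →+* ℂ)

theorem tf_tr (S : Set (L ≃ₐ[ℚ] L)) (τ σ : L ≃ₐ[ℚ] L) :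
    tf p ν j (tr τ S) σ = tf p ν j S (σ * τ) := by
  unfold tf
  refine Finset.sum_congr rfl fun d _ => ?_
  have h : d * σ ∈ tr τ S ↔ d * (σ * τ) ∈ S := by rw [mem_tr, mul_assoc]
  by_cases h1 : d * (σ * τ) ∈ S
  · rw [if_pos h1, if_pos (h.2 h1)]
  · rw [if_neg h1, if_neg (fun h2 => h1 (h.1 h2))]

theorem tf_compl (S : Set (L ≃ₐ[ℚ] L)) (σ : L ≃ₐ[ℚ] L) :
    tf p ν j Sᶜ σ = -tf p ν j S σ := by
  unfold tf
  rw [← Finset.sum_neg_distrib]
  refine Finset.sum_congr rfl fun d _ => ?_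
  by_cases hd : d ∈ Dec p ν j
  · rw [if_pos hd, if_pos hd]
    by_cases h1 : d * σ ∈ S
    · have h2 : ¬ d * σ ∈ Sᶜ := fun h => h h1
      rw [if_pos h1, if_neg h2]
    · have h2 : d * σ ∈ Sᶜ := h1
      rw [if_neg h1, if_pos h2, neg_neg]
  · rw [if_neg hd, if_neg hd, neg_zero]

theorem tr_hs' (A : CMPair) (τ : L ≃ₐ[ℚ] L) (φ : A.E →+* L) :
    tr τ (hs A j φ) = hs A j (τ • φ) := tr_hs A j τ φ

theorem tf_cc (A : CMPair) (φ : A.E →+* L) (σ : L ≃ₐ[ℚ] L) :
    tf p ν j (hs A j (cc L • φ)) σ = -tf p ν j (hs A j φ) σ := by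
  rw [← tr_hs', tr_cc j (isHalf_hs A j φ), tf_compl]

/-- Frobenius endomorphisms of the factors given by half systems. -/
theorem frob_pairOf (hval : S_val) {S : Set (L ≃ₐ[ℚ] L)} (hS : IsHalf S) (a : ℕ) (α : fld S)
    (hint : IsIntegral ℤ (α : L)) (hweil : ∀ ψ : L →+* ℂ, ‖ψ α‖ ^ 2 = (p : ℝ) ^ a)
    (hst : ∀ τ : L ≃ₐ[ℚ] L, ‖ν.symm (j (τ α))‖ ^ (2 * (Nat.card (Dec p ν j) : ℤ)) =
      ‖(p : PadicAlgCl p) ^ a‖ ^ ((Nat.card (Dec p ν j) : ℤ) + tf p ν j S τ)) :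
    IsFrobenius p ν (pairOf j S hS) a α where
  integral := (isIntegral_algHom_iff ((fld S).val.restrictScalars ℤ)
    (fld S).val.injective).1 hint
  weil := by
    intro φ
    obtain ⟨τ, hτ⟩ := exists_embC j S φ
    have h1 : φ α = j (τ α) := RingHom.congr_fun hτ α
    rw [h1]
    exact hweil (j.comp (τ : L →+* L))
  shimuraTaniyama := by
    have hbig : BigA (pairOf j S hS) j := by
      intro ψ
      obtain ⟨τ, hτ⟩ := exists_embC j S ψ
      exact ⟨emb S τ, hτ.symm⟩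
    refine (hval p ν L j (pairOf j S hS) hbig a α).2 ?_
    intro φ
    obtain ⟨τ, hτ⟩ := exists_emb S φ
    have h1 : (φ α : L) = τ α := RingHom.congr_fun hτ α
    have h2 : hs (pairOf j S hS) j φ = tr τ S := by
      have h3 : φ = emb S τ := hτ
      rw [h3]
      exact St_wt j (fun _ : Unit => S) (fun _ => hS) () τ
    rw [h1, h2, tf_tr, one_mul]
    exact hst τ

end

end Pool.Agent.W417.TA
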