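import Pool.Agent.W417.TA.WeilA

/-!
# The family of a semi-invariant sign function: orbits, balancing and Frobenius
-/

set_option autoImplicit false
set_option linter.unusedSectionVars false

namespace Pool.Agent.W417.TA

open NumberField Pool.Agent.H204R3.CM Pool.Agent.W547.KB Pool.Agent.W547.LD Module
  Pool.Agent.W495.TA
open scoped TensorProduct

noncomputable section

variable {L : Type} [Field L] [NumberField L] [IsCMField L] [IsGalois ℚ L] (j : L →+* ℂ)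
  (A : CMPair) {ε s : (A.E →+* L) → ℤ}

/-- the half system of the sign character -/
def eS (s : (A.E →+* L) → ℤ) (φ0 : A.E →+* L) (u : ℤ) : Set (L ≃ₐ[ℚ] L) :=
  {σ | u * s (σ • φ0) = 1}

theorem sign_mul {a b : ℤ} (ha : a = 1 ∨ a = -1) (hb : b = 1 ∨ b = -1) :
    a * b = 1 ∨ a * b = -1 := by
  rcases ha with rfl | rfl <;> rcases hb with rfl | rfl <;> simp

theorem isHalf_eS (hs : IsSign (cc L) s) (φ0 : A.E →+* L) {u : ℤ} (hu : u = 1 ∨ u = -1) :
    IsHalf (eS A s φ0 u) := by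
  intro σ
  change u * s (σ • φ0) = 1 ↔ ¬ u * s ((cc L * σ) • φ0) = 1
  rw [mul_smul, hs.odd]
  rcases sign_mul hu (hs.sign (σ • φ0)) with h | h <;> rw [mul_neg, h] <;> norm_num

theorem isImag_kerN (hs : IsSign (cc L) s) (hsemi : Semi (L ≃ₐ[ℚ] L) s) {φ0 : A.E →+* L}
    (h0 : s φ0 = 1) : IsImag (kerN hsemi h0) := by
  constructor
  · rw [mem_kerN, hs.odd, h0]
    norm_num
  · intro τ hτ
    rw [mem_kerN] at hτ ⊢
    rw [mul_smul, hs.odd]
    rcases hs.sign (τ • φ0) with h | h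
    · exact absurd h hτ
    · rw [h, neg_neg]

theorem tr_eS (hsemi : Semi (L ≃ₐ[ℚ] L) s) {φ0 : A.E →+* L}
    (h0 : s φ0 = 1) (u : ℤ) (τ : L ≃ₐ[ℚ] L) (hτ : τ ∈ kerN hsemi h0) :
    tr τ (eS A s φ0 u) = eS A s φ0 u := by
  ext σ
  rw [mem_tr]
  change u * s ((σ * τ) • φ0) = 1 ↔ u * s (σ • φ0) = 1
  rw [mul_smul, chi hsemi h0, (mem_kerN hsemi h0 τ).1 hτ, mul_one]

theorem stab_eS (hsemi : Semi (L ≃ₐ[ℚ] L) s) (hs : IsSign (cc L) s) {φ0 : A.E →+* L}
    (h0 : s φ0 = 1) {u : ℤ} (hu : u = 1 ∨ u = -1) :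
    stab (eS A s φ0 u) ≤ kerN hsemi h0 := by
  intro τ hτ
  rw [mem_stab] at hτ
  have h1 : ∀ σ, u * s ((σ * τ) • φ0) = 1 ↔ u * s (σ • φ0) = 1 := fun σ => by
    have := Set.ext_iff.1 hτ σ
    exact this
  rw [mem_kerN]
  rcases hu with rfl | rfl
  · have := (h1 1).2 (by rw [one_smul, h0]; norm_num)
    rw [one_mul, one_mul] at this
    exact this
  · have := (h1 (cc L)).2 (by rw [hs.odd, h0]; norm_num)
    rw [mul_smul, hs.odd] at this
    linarith

theorem mem_hs (hε : ∀ φ, ε φ = 1 ↔ j.comp φ ∈ A.Φ) (φ : A.E →+* L) (σ : L ≃ₐ[ℚ] L) :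
    σ ∈ hs A j φ ↔ ε (σ • φ) = 1 := (hε (σ • φ)).symm

/-- The family of half systems. -/
def fam (s : (A.E →+* L) → ℤ) (φ0 : A.E →+* L) (u : ℤ) (r : ℕ) :
    Option (Fin r) → Set (L ≃ₐ[ℚ] L)
  | none => hs A j φ0
  | some _ => eS A s φ0 u

theorem isHalf_fam (hs : IsSign (cc L) s) (φ0 : A.E →+* L) {u : ℤ} (hu : u = 1 ∨ u = -1) (r : ℕ) :
    ∀ q, IsHalf (fam j A s φ0 u r q)
  | none => isHalf_hs A j φ0
  | some _ => isHalf_eS A hs φ0 hu

theorem stab_fam (hsemi : Semi (L ≃ₐ[ℚ] L) s) (hs' : IsSign (cc L) s) {φ0 : A.E →+* L}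
    (h0 : s φ0 = 1) {u : ℤ} (hu : u = 1 ∨ u = -1) (r : ℕ)
    (hinj : Function.Injective fun φ : A.E →+* L => hs A j φ) :
    ∀ q, stab (fam j A s φ0 u r q) ≤ kerN hsemi h0
  | none => by
    intro τ hτ
    have h1 : tr τ (hs A j φ0) = hs A j φ0 := hτ
    rw [tr_hs'] at h1
    have h2 : τ • φ0 = φ0 := hinj h1
    rw [mem_kerN, h2, h0]
  | some _ => stab_eS A hsemi hs' h0 hu

theorem trans_emb (φ φ' : A.E →+* L) : ∃ g : L ≃ₐ[ℚ] L, g • φ = φ' := by
  let _ := φ.toAlgebra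
  have : IsScalarTower ℚ A.E L := inferInstance
  let ψ : A.E →ₐ[ℚ] L := RingHom.equivRatAlgHom A.E L φ'
  let f : L →ₐ[ℚ] L := ψ.liftNormal L
  let g : L ≃ₐ[ℚ] L := AlgEquiv.ofBijective f (AlgHom.bijective f)
  refine ⟨g, ?_⟩
  ext x
  exact ψ.liftNormal_commutes L x

/-- The indices of the orbits. -/
def toOrb (hsemi : Semi (L ≃ₐ[ℚ] L) s) {φ0 : A.E →+* L}
    (h0 : s φ0 = 1) (u : ℤ) (r : ℕ) :
    {φ : A.E →+* L // s φ = 1} ⊕ Fin r → Orb (kerN hsemi h0) (fam j A s φ0 u r)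
  | Sum.inl φ => ⟨none, hs A j φ.1, by
      obtain ⟨g, hg⟩ := trans_emb A φ0 φ.1
      refine ⟨g, ?_, ?_⟩
      · rw [mem_kerN, hg]
        exact φ.2
      · change tr g (hs A j φ0) = _
        rw [tr_hs', hg]⟩
  | Sum.inr i => ⟨some i, eS A s φ0 u, 1, Subgroup.one_mem _, tr_one _⟩

theorem toOrb_bijective (hsemi : Semi (L ≃ₐ[ℚ] L) s) {φ0 : A.E →+* L}
    (h0 : s φ0 = 1) (u : ℤ) (r : ℕ)
    (hinj : Function.Injective fun φ : A.E →+* L => hs A j φ) :
    Function.Bijective (toOrb j A hsemi h0 u r) := by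
  constructor
  · rintro (φ | i) (φ' | i') h
    · have h1 := eq_of_heq (Sigma.mk.inj h).2
      have h2 : hs A j φ.1 = hs A j φ'.1 := congrArg Subtype.val h1
      exact congrArg Sum.inl (Subtype.ext (hinj h2))
    · have h1 : (none : Option (Fin r)) = some i' := congrArg Sigma.fst h
      exact absurd h1 (by simp)
    · have h1 : (some i : Option (Fin r)) = none := congrArg Sigma.fst h
      exact absurd h1 (by simp)
    · have h1 : (some i : Option (Fin r)) = some i' := congrArg Sigma.fst h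
      exact congrArg Sum.inr (Option.some_injective _ h1)
  · rintro ⟨_ | i, S, τ, hτ, hS⟩
    · refine ⟨Sum.inl ⟨τ • φ0, hτ⟩, ?_⟩
      have h1 : hs A j (τ • φ0) = S := by
        rw [← tr_hs']
        exact hS
      subst h1
      rfl
    · refine ⟨Sum.inr i, ?_⟩
      have h1 : eS A s φ0 u = S := by
        rw [← hS]
        exact (tr_eS A hsemi h0 u τ hτ).symm
      subst h1
      rfl

theorem balanced_fam (hsemi : Semi (L ≃ₐ[ℚ] L) s) (hs' : IsSign (cc L) s)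
    (hεs : IsSign (cc L) ε) (hε : ∀ φ, ε φ = 1 ↔ j.comp φ ∈ A.Φ)
    {φ0 : A.E →+* L} (h0 : s φ0 = 1) {u : ℤ} (hu : u = 1 ∨ u = -1) (r : ℕ)
    [Fintype (A.E →+* L)] (hbal : Bal (G := L ≃ₐ[ℚ] L) ε s r u)
    (hinj : Function.Injective fun φ : A.E →+* L => hs A j φ)
    [Fintype (Orb (kerN hsemi h0) (fam j A s φ0 u r))] :
    Balanced (fun k : Orb (kerN hsemi h0) (fam j A s φ0 u r) => k.2.1) := by
  classical
  intro σ
  have h1 := hbal σ φ0 h0
  rw [← Equiv.sum_comp (Equiv.ofBijective _ (toOrb_bijective j A hsemi h0 u r hinj)),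
    Fintype.sum_sum_type]
  rw [← h1]
  congr 1
  · rw [← Finset.sum_filter, ← Finset.sum_subtype_eq_sum_filter, Finset.subtype_univ]
    refine Finset.sum_congr rfl fun φ _ => ?_
    have h2 : (σ ∈ hs A j φ.1) ↔ ε (σ • φ.1) = 1 := mem_hs j A hε φ.1 σ
    change (if σ ∈ hs A j φ.1 then (1 : ℤ) else -1) = _
    rcases hεs.sign (σ • φ.1) with h | h
    · rw [if_pos (h2.2 h), h]
    · rw [if_neg (fun h3 => by
        have := h2.1 h3
        rw [h] at this
        norm_num at this), h]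
  · have h2 : ∀ i : Fin r, (if σ ∈ eS A s φ0 u then (1 : ℤ) else -1) = u * s (σ • φ0) := by
      intro _
      rcases sign_mul hu (hs'.sign (σ • φ0)) with h | h
      · rw [if_pos (show σ ∈ eS A s φ0 u from h), h]
      · rw [if_neg (fun h3 : σ ∈ eS A s φ0 u => by
          have h4 : u * s (σ • φ0) = 1 := h3
          rw [h] at h4
          norm_num at h4), h]
    refine (Finset.sum_congr rfl fun i _ => h2 i).trans ?_
    rw [Finset.sum_const, Finset.card_univ, Fintype.card_fin, nsmul_eq_mul]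
    ring

theorem card_pos_part (hs' : IsSign (cc L) s) [Fintype (A.E →+* L)]
    [Fintype {φ : A.E →+* L // s φ = 1}] :
    Fintype.card (A.E →+* L) = 2 * Fintype.card {φ : A.E →+* L // s φ = 1} := by
  classical
  have h1 : Fintype.card {φ : A.E →+* L // ¬ s φ = 1} =
      Fintype.card {φ : A.E →+* L // s φ = 1} := by
    have hinv : ∀ φ : A.E →+* L, cc L • cc L • φ = φ := by
      intro φ
      rw [← mul_smul, cc_cc, one_smul]
    refine Fintype.card_congr ⟨fun φ => ⟨cc L • φ.1, ?_⟩, fun φ => ⟨cc L • φ.1, ?_⟩, ?_, ?_⟩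
    · rw [hs'.odd]
      rcases hs'.sign φ.1 with h | h
      · exact absurd h φ.2
      · rw [h, neg_neg]
    · rw [hs'.odd, φ.2]
      norm_num
    · intro φ
      exact Subtype.ext (hinv _)
    · intro φ
      exact Subtype.ext (hinv _)
  have h2 := Fintype.card_subtype_compl (fun φ : A.E →+* L => s φ = 1)
  have h3 := Fintype.card_subtype_le (fun φ : A.E →+* L => s φ = 1)
  omega

end

end Pool.Agent.W417.TA
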