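import Pool.Agent.W417.TA.WeilB

/-!
# The reductions of split Weil classes
-/

set_option autoImplicit false
set_option linter.unusedSectionVars false

namespace Pool.Agent.W417.TA

open NumberField Pool.Agent.H204R3.CM Pool.Agent.W547.KB Pool.Agent.W547.LD Module
  Pool.Agent.W495.TA
open scoped TensorProduct

noncomputable section

variable {p : ℕ} [Fact p.Prime] {ν : PadicAlgCl p ≃+* ℂ}
  {L : Type} [Field L] [NumberField L] [IsCMField L] [IsGalois ℚ L] (j : L →+* ℂ)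
  (A : CMPair) {ε s : (A.E →+* L) → ℤ}

open Classical in
theorem tf_hs_eq (hεs : IsSign (cc L) ε) (hε : ∀ φ, ε φ = 1 ↔ j.comp φ ∈ A.Φ)
    (φ : A.E →+* L) (σ : L ≃ₐ[ℚ] L) :
    tf p ν j (hs A j φ) σ = ∑ d : L ≃ₐ[ℚ] L, if d ∈ Dec p ν j then ε ((d * σ) • φ) else 0 := by
  unfold tf
  refine Finset.sum_congr rfl fun d _ => ?_
  have h2 : (d * σ ∈ hs A j φ) ↔ ε ((d * σ) • φ) = 1 := mem_hs j A hε φ (d * σ)
  by_cases hd : d ∈ Dec p ν j
  · rw [if_pos hd, if_pos hd]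
    rcases hεs.sign ((d * σ) • φ) with h | h
    · rw [if_pos (h2.2 h), h]
    · rw [if_neg (fun h3 => by
        have := h2.1 h3
        rw [h] at this
        norm_num at this), h]
  · rw [if_neg hd, if_neg hd]

open Classical in
theorem tf_eS_eq (hs' : IsSign (cc L) s) (φ0 : A.E →+* L) {u : ℤ} (hu : u = 1 ∨ u = -1)
    (σ : L ≃ₐ[ℚ] L) :
    tf p ν j (eS A s φ0 u) σ =
      ∑ d : L ≃ₐ[ℚ] L, if d ∈ Dec p ν j then u * s ((d * σ) • φ0) else 0 := by
  unfold tf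
  refine Finset.sum_congr rfl fun d _ => ?_
  by_cases hd : d ∈ Dec p ν j
  · rw [if_pos hd, if_pos hd]
    rcases sign_mul hu (hs'.sign ((d * σ) • φ0)) with h | h
    · rw [if_pos (show d * σ ∈ eS A s φ0 u from h), h]
    · rw [if_neg (fun h3 : d * σ ∈ eS A s φ0 u => by
        have h4 : u * s ((d * σ) • φ0) = 1 := h3
        rw [h] at h4
        norm_num at h4), h]
  · rw [if_neg hd, if_neg hd]

theorem tf_eS_zero (hs' : IsSign (cc L) s)
    (hεs : IsSign (cc L) ε) (hε : ∀ φ, ε φ = 1 ↔ j.comp φ ∈ A.Φ)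
    {φ0 : A.E →+* L} (h0 : s φ0 = 1) {u : ℤ} (hu : u = 1 ∨ u = -1) {r : ℕ} (hr : 0 < r)
    [Fintype (A.E →+* L)] (hbal : Bal (G := L ≃ₐ[ℚ] L) ε s r u)
    (hrel : ∀ σ, ∑ φ, s φ * tf p ν j (hs A j φ) σ = 0) (σ : L ≃ₐ[ℚ] L) :
    tf p ν j (eS A s φ0 u) σ = 0 := by
  classical
  -- the half sum vanishes
  have hA : ∑ φ, (if s φ = 1 then tf p ν j (hs A j φ) σ else 0) = 0 := by
    have h1 : ∑ φ, (if s φ = 1 then 0 else tf p ν j (hs A j φ) σ) =
        -∑ φ, (if s φ = 1 then tf p ν j (hs A j φ) σ else 0) := by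
      rw [← Finset.sum_neg_distrib]
      have hinv : Function.Involutive (fun φ : A.E →+* L => cc L • φ) := by
        intro φ
        change cc L • cc L • φ = φ
        rw [← mul_smul, cc_cc, one_smul]
      refine Fintype.sum_equiv hinv.toPerm _ _ fun φ => ?_
      change _ = -(if s (cc L • φ) = 1 then tf p ν j (hs A j (cc L • φ)) σ else 0)
      rw [hs'.odd, tf_cc]
      rcases hs'.sign φ with h | h
      · rw [h, if_pos rfl, if_neg (by norm_num), neg_zero]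
      · rw [h, if_neg (by norm_num), if_pos (by norm_num), neg_neg]
    have h2 : ∑ φ, s φ * tf p ν j (hs A j φ) σ =
        ∑ φ, (if s φ = 1 then tf p ν j (hs A j φ) σ else 0) -
        ∑ φ, (if s φ = 1 then 0 else tf p ν j (hs A j φ) σ) := by
      rw [← Finset.sum_sub_distrib]
      refine Finset.sum_congr rfl fun φ _ => ?_
      rcases hs'.sign φ with h | h
      · rw [h, if_pos rfl, if_pos rfl, one_mul, sub_zero]
      · rw [h, if_neg (by norm_num), if_neg (by norm_num)]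
        ring
    rw [hrel σ, h1] at h2
    linarith
  have h3 : ∑ φ, (if s φ = 1 then tf p ν j (hs A j φ) σ else 0) =
      -(r * tf p ν j (eS A s φ0 u) σ) := by
    rw [tf_eS_eq j A hs' φ0 hu σ, Finset.mul_sum, ← Finset.sum_neg_distrib]
    have h4 : ∀ φ, (if s φ = 1 then tf p ν j (hs A j φ) σ else 0) =
        ∑ d : L ≃ₐ[ℚ] L, if d ∈ Dec p ν j then
          (if s φ = 1 then ε ((d * σ) • φ) else 0) else 0 := by
      intro φ
      by_cases h : s φ = 1
      · rw [if_pos h, tf_hs_eq j A hεs hε]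
        refine Finset.sum_congr rfl fun d _ => ?_
        rw [if_pos h]
      · rw [if_neg h]
        refine (Finset.sum_eq_zero fun d _ => ?_).symm
        rw [if_neg h, ite_self]
    rw [Finset.sum_congr rfl fun φ _ => h4 φ, Finset.sum_comm]
    refine Finset.sum_congr rfl fun d _ => ?_
    by_cases hd : d ∈ Dec p ν j
    · simp only [if_pos hd]
      have h5 := hbal (d * σ) φ0 h0
      have h6 : (r : ℤ) * (u * s ((d * σ) • φ0)) = r * u * s ((d * σ) • φ0) := by ring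
      rw [h6]
      linarith
    · simp only [if_neg hd, mul_zero, neg_zero, Finset.sum_const_zero]
  rw [hA] at h3
  have h7 : (r : ℤ) * tf p ν j (eS A s φ0 u) σ = 0 := by linarith
  rcases mul_eq_zero.1 h7 with h | h
  · exfalso
    have : (r : ℤ) ≠ 0 := by positivity
    exact this h
  · exact h

/-- The Frobenius elements. -/
def pe (b : ℕ) (φ0 : A.E →+* L) (ϖ : A.E) (p : ℕ) (r : ℕ) : Option (Fin r) → L
  | none => (φ0 ϖ) ^ 2
  | some _ => (p : L) ^ b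

theorem pe_mem {u : ℤ} (r b : ℕ) (φ0 : A.E →+* L) (ϖ : A.E) (p : ℕ)
    (hinj : Function.Injective fun φ : A.E →+* L => hs A j φ) :
    ∀ q, pe A b φ0 ϖ p r q ∈ fld (fam j A s φ0 u r q)
  | none => by
    rw [mem_fld]
    intro τ hτ
    have h1 : tr τ (hs A j φ0) = hs A j φ0 := hτ
    rw [tr_hs'] at h1
    have h2 : τ • φ0 = φ0 := hinj h1
    have h3 : τ (φ0 ϖ) = φ0 ϖ := RingHom.congr_fun h2 ϖ
    change τ ((φ0 ϖ) ^ 2) = (φ0 ϖ) ^ 2
    rw [map_pow, h3]
  | some _ => by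
    rw [mem_fld]
    intro τ _
    change τ ((p : L) ^ b) = (p : L) ^ b
    rw [map_pow, map_natCast]

theorem p_norm_ne : ‖(p : PadicAlgCl p)‖ ≠ 0 := by
  rw [norm_ne_zero_iff, Nat.cast_ne_zero]
  exact (Fact.out : p.Prime).ne_zero

theorem frob_fam (hval : S_val) (hbig : BigA A j) {b : ℕ} {ϖ : A.E}
    (hfrob : IsFrobenius p ν A b ϖ)
    (hs' : IsSign (cc L) s)
    (hεs : IsSign (cc L) ε) (hε : ∀ φ, ε φ = 1 ↔ j.comp φ ∈ A.Φ)
    {φ0 : A.E →+* L} (h0 : s φ0 = 1) {u : ℤ} (hu : u = 1 ∨ u = -1) (r : ℕ)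
    [Fintype (A.E →+* L)] (hbal : Bal (G := L ≃ₐ[ℚ] L) ε s r u)
    (hrel : ∀ σ, ∑ φ, s φ * tf p ν j (hs A j φ) σ = 0)
    (hinj : Function.Injective fun φ : A.E →+* L => hs A j φ) :
    ∀ q, IsFrobenius p ν (pairOf j (fam j A s φ0 u r q) (isHalf_fam j A hs' φ0 hu r q)) (2 * b)
      (show fld (fam j A s φ0 u r q) from ⟨pe A b φ0 ϖ p r q, pe_mem j A r b φ0 ϖ p hinj q⟩)
  | none => by
    refine frob_pairOf j hval _ (2 * b) _ ?_ ?_ ?_
    · change IsIntegral ℤ ((φ0 ϖ) ^ 2)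
      exact (hfrob.integral.map (φ0.toIntAlgHom)).pow 2
    · intro ψ
      change ‖ψ ((φ0 ϖ) ^ 2)‖ ^ 2 = _
      have h1 := hfrob.weil (ψ.comp φ0)
      have h2 : (ψ.comp φ0) ϖ = ψ (φ0 ϖ) := rfl
      rw [h2] at h1
      rw [map_pow, norm_pow, h1, ← pow_mul, mul_comm]
    · intro τ
      change ‖ν.symm (j (τ ((φ0 ϖ) ^ 2)))‖ ^ (2 * (Nat.card (Dec p ν j) : ℤ)) =
        ‖(p : PadicAlgCl p) ^ (2 * b)‖ ^ ((Nat.card (Dec p ν j) : ℤ) +
          tf p ν j (hs A j φ0) τ)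
      have h1 := (hval p ν L j A hbig b ϖ).1 hfrob.shimuraTaniyama (τ • φ0)
      rw [← tr_hs', tf_tr, one_mul] at h1
      have h2 : (τ • φ0) ϖ = τ (φ0 ϖ) := rfl
      rw [h2] at h1
      rw [map_pow, map_pow, map_pow, norm_pow, ← zpow_natCast ‖ν.symm (j (τ (φ0 ϖ)))‖, zpow_comm,
        h1, mul_comm 2 b, pow_mul, norm_pow ((p : PadicAlgCl p) ^ b) 2,
        ← zpow_natCast ‖(p : PadicAlgCl p) ^ b‖ 2, zpow_comm]
  | some i => by
    refine frob_pairOf j hval _ (2 * b) _ ?_ ?_ ?_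
    · change IsIntegral ℤ ((p : L) ^ b)
      exact (isIntegral_natCast (R := ℤ) p).pow b
    · intro ψ
      change ‖ψ ((p : L) ^ b)‖ ^ 2 = _
      rw [map_pow, map_natCast, norm_pow, Complex.norm_natCast, ← pow_mul, mul_comm]
    · intro τ
      change ‖ν.symm (j (τ ((p : L) ^ b)))‖ ^ (2 * (Nat.card (Dec p ν j) : ℤ)) =
        ‖(p : PadicAlgCl p) ^ (2 * b)‖ ^ ((Nat.card (Dec p ν j) : ℤ) +
          tf p ν j (eS A s φ0 u) τ)
      rw [tf_eS_zero j A hs' hεs hε h0 hu (Fin.pos i) hbal hrel τ, add_zero]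
      rw [map_pow, map_natCast, map_pow, map_natCast, map_pow, map_natCast, mul_comm 2 b, pow_mul,
        norm_pow (((p : PadicAlgCl p)) ^ b) 2, ← zpow_natCast ‖(p : PadicAlgCl p) ^ b‖, ← zpow_mul]
      norm_num

end

end Pool.Agent.W417.TA
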